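import Mathlib
import Pool.Agent.Lib.MP_a2f1b8_an.Glue
import Pool.Agent.Lib.MP_a2f1b8_an.Flex

set_option autoImplicit false

namespace Pool.Agent.Results.MP_a2f1b8_an.Charts

open Filter Topology

/-- The scale invariant map on the cone over the complement of the cubic. -/
theorem cone_map (P : MvPolynomial (Fin 3) ℂ) (hP : P.IsHomogeneous 3)
    (hs : ∀ z : Fin 3 → ℂ, z ≠ 0 → MvPolynomial.eval z P = 0 →
      ∃ i : Fin 3, MvPolynomial.eval z (MvPolynomial.pderiv i P) ≠ 0) :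
    ∃ F : (Fin 3 → ℂ) → (Fin 2 → ℂ),
      DifferentiableOn ℂ F {z : Fin 3 → ℂ | MvPolynomial.eval z P ≠ 0} ∧
      (∀ z : Fin 3 → ℂ, MvPolynomial.eval z P ≠ 0 → ∀ c : ℂ, c ≠ 0 → F (c • z) = F z) ∧
      (∀ z : Fin 3 → ℂ, MvPolynomial.eval z P ≠ 0 → Function.Surjective (fderiv ℂ F z)) := by
  obtain ⟨A, α, β, c, hc, hA⟩ := Pool.Agent.Lib.MP_a2f1b8_an.exists_normal_form P hP hs
  obtain ⟨F, h1, h2, h3⟩ := Pool.Agent.Lib.MP_a2f1b8_an.weierstrass_immersion α β
  have hmem : ∀ z : Fin 3 → ℂ, MvPolynomial.eval z P ≠ 0 → A.symm z ∈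
      {w : Fin 3 → ℂ | w 1 ^ 2 * w 2 - w 0 * (w 0 ^ 2 + α * w 0 * w 2 + β * w 2 ^ 2) ≠ 0} := by
    intro z hz h0
    apply hz
    have h4 := hA (A.symm z)
    rw [A.apply_symm_apply, h0, mul_zero] at h4
    exact h4
  refine ⟨F ∘ A.symm, h1.comp A.symm.differentiableOn fun z hz => hmem z hz, fun z hz k hk => ?_,
    fun z hz => ?_⟩
  · rw [Function.comp_apply, Function.comp_apply, map_smul]
    exact h2 _ (hmem z hz) k hk
  · rw [A.symm.comp_right_fderiv]
    exact (h3 _ (hmem z hz)).comp A.symm.surjective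

theorem ins_ne_zero (i : Fin 3) (v : Fin 2 → ℂ) :
    (Fin.insertNth i (1 : ℂ) v : Fin 3 → ℂ) ≠ 0 := by
  intro h
  have h1 := congrFun h i
  simp at h1

/-- The linear part of the affine chart. -/
theorem exists_lin (i : Fin 3) : ∃ L : (Fin 2 → ℂ) →L[ℂ] (Fin 3 → ℂ),
    ∀ v : Fin 2 → ℂ, L v = (Fin.insertNth i (0 : ℂ) v : Fin 3 → ℂ) := by
  let L0 : (Fin 2 → ℂ) →ₗ[ℂ] (Fin 3 → ℂ) :=
    { toFun := fun v => (Fin.insertNth i (0 : ℂ) v : Fin 3 → ℂ)
      map_add' := by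
        intro v w
        funext j
        refine Fin.succAboveCases i ?_ (fun k => ?_) j <;> simp
      map_smul' := by
        intro c v
        funext j
        refine Fin.succAboveCases i ?_ (fun k => ?_) j <;> simp }
  exact ⟨LinearMap.toContinuousLinearMap L0, fun v => rfl⟩

theorem ins_eq (i : Fin 3) (v : Fin 2 → ℂ) :
    (Fin.insertNth i (1 : ℂ) v : Fin 3 → ℂ) =
      (Fin.insertNth i (1 : ℂ) (0 : Fin 2 → ℂ) : Fin 3 → ℂ) +
        (Fin.insertNth i (0 : ℂ) v : Fin 3 → ℂ) := by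
  funext j
  refine Fin.succAboveCases i ?_ (fun k => ?_) j <;> simp

theorem isOpen_compl_cubic (P : MvPolynomial (Fin 3) ℂ) :
    IsOpen {z : Fin 3 → ℂ | MvPolynomial.eval z P ≠ 0} :=
  isOpen_ne_fun (MvPolynomial.continuous_eval P) continuous_const

/-- Euler: the derivative of a scale invariant map kills the radial vector. -/
theorem radial (F : (Fin 3 → ℂ) → (Fin 2 → ℂ)) (z : Fin 3 → ℂ) (hd : DifferentiableAt ℂ F z)
    (hinv : ∀ c : ℂ, c ≠ 0 → F (c • z) = F z) : fderiv ℂ F z z = 0 := by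
  have h1 : HasDerivAt (fun c : ℂ => c • z) z 1 := by
    simpa using (hasDerivAt_id (1 : ℂ)).smul_const z
  have h2 : HasFDerivAt F (fderiv ℂ F z) ((fun c : ℂ => c • z) 1) := by
    simpa using hd.hasFDerivAt
  have h3 := h2.comp_hasDerivAt (1 : ℂ) h1
  have h4 : (F ∘ fun c : ℂ => c • z) =ᶠ[𝓝 (1 : ℂ)] fun _ => F z := by
    filter_upwards [isOpen_ne.mem_nhds (one_ne_zero : (1 : ℂ) ≠ 0)] with c hc
    exact hinv c hc
  have h5 : HasDerivAt (fun _ : ℂ => F z) (fderiv ℂ F z z) 1 := h3.congr_of_eventuallyEq h4.symm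
  exact h5.unique (hasDerivAt_const (1 : ℂ) (F z))

/-- For every smooth plane cubic there is a map from the projective plane to the affine plane that, read
in each of the three standard affine charts, is holomorphic with invertible differential at every point
off the cubic. -/
theorem result (P : MvPolynomial (Fin 3) ℂ) (hP : P.IsHomogeneous 3)
    (hs : ∀ z : Fin 3 → ℂ, z ≠ 0 → MvPolynomial.eval z P = 0 →
      ∃ i : Fin 3, MvPolynomial.eval z (MvPolynomial.pderiv i P) ≠ 0) :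
    ∃ G : Projectivization ℂ (Fin 3 → ℂ) → (Fin 2 → ℂ),
      ∀ i : Fin 3, ∃ g : (Fin 2 → ℂ) → (Fin 2 → ℂ),
        (∀ (v : Fin 2 → ℂ) (h : (Fin.insertNth i (1 : ℂ) v : Fin 3 → ℂ) ≠ 0),
          g v = G (Projectivization.mk ℂ (Fin.insertNth i (1 : ℂ) v : Fin 3 → ℂ) h)) ∧
        ∀ u : Fin 2 → ℂ, MvPolynomial.eval (Fin.insertNth i (1 : ℂ) u : Fin 3 → ℂ) P ≠ 0 →
          DifferentiableAt ℂ g u ∧ Function.Bijective (fderiv ℂ g u) := by
  obtain ⟨F, hd, hinv, hsurj⟩ := cone_map P hP hs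
  refine ⟨fun p => F p.rep, fun i => ?_⟩
  obtain ⟨L, hL⟩ := exists_lin i
  refine ⟨fun v => F (Projectivization.mk ℂ (Fin.insertNth i (1 : ℂ) v : Fin 3 → ℂ)
    (ins_ne_zero i v)).rep, fun v h => rfl, fun u hu => ?_⟩
  set z : Fin 3 → ℂ := Fin.insertNth i (1 : ℂ) u with hz
  set e : Fin 3 → ℂ := Fin.insertNth i (1 : ℂ) (0 : Fin 2 → ℂ) with he
  have hch : ∀ v : Fin 2 → ℂ, (Fin.insertNth i (1 : ℂ) v : Fin 3 → ℂ) = e + L v := by
    intro v
    rw [hL, he]
    exact ins_eq i v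
  have hφ : HasFDerivAt (fun v : Fin 2 → ℂ => e + L v) L u := L.hasFDerivAt.const_add e
  have hzu : e + L u = z := (hch u).symm
  have hFz : DifferentiableAt ℂ F z := hd.differentiableAt ((isOpen_compl_cubic P).mem_nhds hu)
  have hFz' : HasFDerivAt F (fderiv ℂ F z) ((fun v : Fin 2 → ℂ => e + L v) u) := by
    show HasFDerivAt F (fderiv ℂ F z) (e + L u)
    rw [hzu]
    exact hFz.hasFDerivAt
  have hcomp := hFz'.comp u hφ
  have hnear : ∀ᶠ v in 𝓝 u, MvPolynomial.eval (e + L v) P ≠ 0 := by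
    have h1 : {w : Fin 3 → ℂ | MvPolynomial.eval w P ≠ 0} ∈ 𝓝 (e + L u) := by
      rw [hzu]
      exact (isOpen_compl_cubic P).mem_nhds hu
    exact hφ.continuousAt h1
  have hev : (fun v : Fin 2 → ℂ => F (Projectivization.mk ℂ
      (Fin.insertNth i (1 : ℂ) v : Fin 3 → ℂ) (ins_ne_zero i v)).rep) =ᶠ[𝓝 u]
      (F ∘ fun v : Fin 2 → ℂ => e + L v) := by
    filter_upwards [hnear] with v hv
    obtain ⟨a, ha⟩ := Projectivization.exists_smul_eq_mk_rep ℂ
      (Fin.insertNth i (1 : ℂ) v : Fin 3 → ℂ) (ins_ne_zero i v)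
    rw [← ha, Function.comp_apply, Units.smul_def, hch v]
    exact hinv _ hv _ a.ne_zero
  have hg := hcomp.congr_of_eventuallyEq hev
  refine ⟨hg.differentiableAt, ?_⟩
  rw [hg.fderiv]
  have hrad : fderiv ℂ F z z = 0 := radial F z hFz (hinv z hu)
  have hs2 : Function.Surjective ((fderiv ℂ F z).comp L) := by
    intro y
    obtain ⟨x, hx⟩ := hsurj z hu y
    refine ⟨Fin.removeNth i (x - x i • z), ?_⟩
    have h1 : L (Fin.removeNth i (x - x i • z)) = x - x i • z := by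
      rw [hL]
      funext j
      refine Fin.succAboveCases i ?_ (fun k => ?_) j
      · simp [hz]
      · simp [Fin.removeNth]
    rw [ContinuousLinearMap.comp_apply, h1, map_sub, map_smul, hrad, smul_zero, sub_zero, hx]
  exact ⟨(LinearMap.injective_iff_surjective
    (f := (((fderiv ℂ F z).comp L : (Fin 2 → ℂ) →L[ℂ] (Fin 2 → ℂ)) :
      (Fin 2 → ℂ) →ₗ[ℂ] (Fin 2 → ℂ)))).2 hs2, hs2⟩

end Pool.Agent.Results.MP_a2f1b8_an.Charts
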